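import Pool.Agent.P8H3.GB.AllP

/-!
# Greenberg's conjecture for all `p ≥ 5` and almost all characters of conductor `2^a 3^b`

Let `p ≥ 5` be a prime. The even characters `θ` of conductor dividing `p 2^a 3^b` are the `ψ ω^m` with `ψ` primitive
modulo `N = 2^c 3^d`, `c ≤ a`, `d ≤ b`, `1 ≤ m ≤ p - 1`, `ψ(-1) = (-1)^m`. We show that the value

  `L_p(1 - m, θ) = - (1 - ψ(p) p^(m-1)) B_{m,ψ} / m`

of the `p`-adic `L`-function is a unit at all places above `p` if `N ≥ p^11`. So `X_θ = 0` for all `θ` whose conductor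
has a prime to `p` part `N = 2^c 3^d ≥ p^11` (known: `X_θ` is a quotient of a module with this characteristic ideal and
without finite submodules; the support statement in the problem file), and for every `p` the finiteness of `X⁺` for all
`N = 2^a 3^b` is a question about an explicit finite set of characters.

Proof. If one of the two prime powers is much larger than the other one, this is the method for one large prime power.
Otherwise the vanishing of the character sum in characteristic `p` gives relations `P(y) + s Q(y') = 0`, for two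
polynomials `P`, `Q` of degree `m - 1`, for many integers `y`, `y'` with `y = -y'` modulo `2^a` and `y = y'` modulo
`3^b`, which is impossible.
-/

set_option autoImplicit false

namespace Pool.Agent.Results.MP_c2a07f_nt.AllPrimesTwoThree

/-- The generalized Bernoulli number `B_{m,ψ} = N^(m-1) ∑_{a=1}^N ψ(a) B_m(a/N)`. -/
noncomputable def genBernoulli (m : ℕ) {N : ℕ} (ψ : DirichletCharacter ℂ N) : ℂ :=
  (N : ℂ) ^ (m - 1) * ∑ a ∈ Finset.Icc 1 N, ψ (a : ZMod N) *
    (((Polynomial.bernoulli m).eval ((a : ℚ) / N) : ℚ) : ℂ)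

/-- `(1 - ψ(p) p^(m-1)) B_{m,ψ} / m`, the value at `1 - m` of the `L`-function of `ψ` without Euler factor
at `p` (up to the sign). -/
noncomputable def lValue (p m : ℕ) {N : ℕ} (ψ : DirichletCharacter ℂ N) : ℂ :=
  (1 - ψ (p : ZMod N) * (p : ℂ) ^ (m - 1)) * genBernoulli m ψ / m

/-- `z` is a unit at all places above `p`: it is not zero, and for some integer `c` prime to `p` the numbers
`c z` and `c / z` are algebraic integers. -/
def IsUnitAt (p : ℕ) (z : ℂ) : Prop :=
  z ≠ 0 ∧ ∃ c : ℤ, IsCoprime (p : ℤ) c ∧ IsIntegral ℤ ((c : ℂ) * z) ∧ IsIntegral ℤ ((c : ℂ) * z⁻¹)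

/-- For all primes `p ≥ 5`, all `a, b ≥ 0` with `2^a 3^b ≥ p^11`, `1 ≤ m ≤ p - 1` and primitive characters `ψ` modulo
`2^a 3^b` with `ψ(-1) = (-1)^m` the value `(1 - ψ(p) p^(m-1)) B_{m,ψ} / m` is a unit at all places above `p`. -/
theorem result {p : ℕ} (hp : p.Prime) (h5 : 5 ≤ p) (a b m : ℕ) (hm1 : 1 ≤ m) (hmp : m ≤ p - 1)
    (hsize : p ^ 11 ≤ 2 ^ a * 3 ^ b)
    (ψ : DirichletCharacter ℂ (2 ^ a * 3 ^ b)) (hprim : ψ.IsPrimitive) (hpar : ψ (-1) = (-1) ^ m) :
    IsUnitAt p (lValue p m ψ) :=
  Pool.Agent.P8H3.GB.unit_all hp h5 hm1 hmp rfl hsize ψ hprim hpar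

end Pool.Agent.Results.MP_c2a07f_nt.AllPrimesTwoThree
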