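import Pool.Agent.P8H3.EF.Fin

/-!
# An effective theorem of Friedman for all conductors

Let `p` be an odd prime and `N > 1` prime to `p` with `p ∤ φ(N)`. Let `Λ` be the product of the primes dividing `N`,
`s` their number, `Σ` their sum and `ℓmax` the largest of them. We show that for

  `N ≥ (4 Λ^3 p^(1 + Σ))^((ℓmax + 1)^s - 1)`

all values `L_p(1 - m, ψ ω^m) = - (1 - ψ(p) p^(m-1)) B_{m,ψ} / m` of `p`-adic `L`-functions with `ψ` primitive modulo
`N`, `1 ≤ m ≤ p - 1`, `ψ(-1) = (-1)^m` are units at all places above `p`. So `X_θ = 0` for all even characters `θ`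
whose conductor has the prime to `p` part `N`, and for every `p` and every finite set of primes the finiteness of `X⁺`
for all `N` composed of these primes is a question about an explicit finite set of characters.

Proof. Suppose that the character sum `∑ χ(a) f(a)` vanishes in characteristic `p`, where `f(a) = m! (B_m(a/N) - B_m)`.
Gauss sums change this to `∑ χ⁻¹(b)^(q^j) h(b) = 0` for all `j`, where `h` is the Fourier transform of `f`. Let `q` be
a power of `p` such that `q - 1` is divisible by `4`, `ℓ` and `ℓ - 1` for all primes `ℓ` dividing `N`. The traces of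
roots of unity give `∑_u χ⁻¹(u) h(u y) = 0` for all units `y`, where `u` runs through the solutions of `u^(q-1) = 1`
modulo `N`. But `h(b)` is a rational function of `ζ^b` with a pole of order `m` at `1`. A set `L` of primes dividing `N`
is large if the powers of `ℓ ∈ L` in `N` are larger than a certain power of the part of `N` prime to `L`. Modulo the
primes in `L` the `u` are close to systems of roots of unity, and linear relations with small coefficients between
such systems modulo `ℓ^a` come from relations between the roots of unity in characteristic `0`, by a norm argument in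
the fields of `(ℓ-1)`-th roots of unity. So the relation between the `h(u y)` becomes an identity in the group ring of
a vector space over `ℚ`, which contradicts the pole of the term of `u = 1`.
-/

set_option autoImplicit false

namespace Pool.Agent.Results.MP_c2a07f_nt.EffectiveFriedman

/-- The generalized Bernoulli number `B_{m,ψ} = N^(m-1) ∑_{a=1}^N ψ(a) B_m(a/N)`. -/
noncomputable def genBernoulli (m : ℕ) {N : ℕ} (ψ : DirichletCharacter ℂ N) : ℂ :=
  (N : ℂ) ^ (m - 1) * ∑ a ∈ Finset.Icc 1 N, ψ (a : ZMod N) *
    (((Polynomial.bernoulli m).eval ((a : ℚ) / N) : ℚ) : ℂ)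

/-- `(1 - ψ(p) p^(m-1)) B_{m,ψ} / m`, the value at `1 - m` of the `L`-function of `ψ` without Euler factor
at `p` (up to the sign). -/
noncomputable def lValue (p m : ℕ) {N : ℕ} (ψ : DirichletCharacter ℂ N) : ℂ :=
  (1 - ψ (p : ZMod N) * (p : ℂ) ^ (m - 1)) * genBernoulli m ψ / m

/-- `z` is a unit at all places above `p`: it is not zero, and for some integer `c` prime to `p` the numbers
`c z` and `c / z` are algebraic integers. -/
def IsUnitAt (p : ℕ) (z : ℂ) : Prop :=
  z ≠ 0 ∧ ∃ c : ℤ, IsCoprime (p : ℤ) c ∧ IsIntegral ℤ ((c : ℂ) * z) ∧ IsIntegral ℤ ((c : ℂ) * z⁻¹)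

/-- The bound `(4 Λ^3 p^(1 + Σ))^((ℓmax + 1)^s - 1)`, where `Λ` is the product of the primes dividing `N`, `Σ` their
sum, `ℓmax` the largest of them and `s` their number. It depends only on `p` and on the set of the primes
dividing `N`. -/
def bound (p N : ℕ) : ℕ :=
  (4 * (∏ ℓ ∈ N.primeFactors, ℓ) ^ 3 * p ^ (1 + ∑ ℓ ∈ N.primeFactors, ℓ)) ^
    ((N.primeFactors.sup id + 1) ^ N.primeFactors.card - 1)

/-- Let `p` be an odd prime, `N > 1`, `p ∤ N`, `p ∤ φ(N)` and `N ≥ bound p N`. Then for `1 ≤ m ≤ p - 1` and all
primitive characters `ψ` modulo `N` with `ψ(-1) = (-1)^m` the value `(1 - ψ(p) p^(m-1)) B_{m,ψ} / m` is a unit at all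
places above `p`. -/
theorem result {p : ℕ} (hp : p.Prime) (h3 : 3 ≤ p) (N m : ℕ) (hN : 1 < N) (hpN : ¬ p ∣ N) (hpφ : ¬ p ∣ N.totient)
    (hm1 : 1 ≤ m) (hmp : m ≤ p - 1) (hsize : bound p N ≤ N)
    (ψ : DirichletCharacter ℂ N) (hprim : ψ.IsPrimitive) (hpar : ψ (-1) = (-1) ^ m) :
    IsUnitAt p (lValue p m ψ) :=
  Pool.Agent.P8H3.EF.effective hp h3 hN hpN hpφ hsize hm1 hmp ψ hprim hpar

end Pool.Agent.Results.MP_c2a07f_nt.EffectiveFriedman
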