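import Pool.Agent.P8H3.GB.Five

/-!
# Greenberg's conjecture for `p = 5` and all `N = 2^a 3^b`

For `p = 5` and `N = 2^a 3^b` the even characters `θ` of conductor dividing `5 N` are the `ψ ω^m` with `ψ` primitive
modulo `2^c 3^d`, `c ≤ a`, `d ≤ b`, `1 ≤ m ≤ 4`, `ψ(-1) = (-1)^m`. We show that the value

  `L_5(1 - m, θ) = - (1 - ψ(5) 5^(m-1)) B_{m,ψ} / m`

of the `5`-adic `L`-function is a unit at all places above `5`, except if `(c, d, m)` is one of the six triples
`(0, 0, 4)`, `(2, 0, 1)`, `(3, 1, 1)`, `(4, 0, 2)`, `(4, 1, 3)`, `(2, 2, 4)`. So `X_θ = 0` for all other `θ` (known: `X_θ`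
is a quotient of a module with this characteristic ideal and without finite submodules; the support statement in the
problem file). The conductors of the `θ` in the six cases are `1`, `20`, `120`, `80`, `240`, `36`; here `X_θ = 0` as the
class numbers of the real cyclotomic fields of the conductors `20`, `120`, `80`, `240`, `36` are one (van der Linden).
Hence `X⁺ = 0` for `p = 5` and all `N = 2^a 3^b`.

Proof. If one of the two prime powers is much larger than the other one, this is the method for one prime power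
(`FiveAndPowersOfThree`). Otherwise, and for large conductors, the vanishing of the character sum in characteristic `5`
would give relations `P(y) + s Q(y') = 0`, for two polynomials `P`, `Q` of degree `m - 1`, for many integers `y`, `y'` with
`y = -y'` modulo `2^a` and `y = y'` modulo `3^b`, which is impossible. There remain `63` pairs `(a, b)`, which are
settled by an explicit calculation in the field with `25` elements.
-/

set_option autoImplicit false

namespace Pool.Agent.Results.MP_c2a07f_nt.FiveTwoThree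

/-- The generalized Bernoulli number `B_{m,ψ} = N^(m-1) ∑_{a=1}^N ψ(a) B_m(a/N)`. -/
noncomputable def genBernoulli (m : ℕ) {N : ℕ} (ψ : DirichletCharacter ℂ N) : ℂ :=
  (N : ℂ) ^ (m - 1) * ∑ a ∈ Finset.Icc 1 N, ψ (a : ZMod N) *
    (((Polynomial.bernoulli m).eval ((a : ℚ) / N) : ℚ) : ℂ)

/-- `(1 - ψ(p) p^(m-1)) B_{m,ψ} / m`, the value at `1 - m` of the `L`-function of `ψ` without Euler factor
at `p` (up to the sign). -/
noncomputable def lValue (p m : ℕ) {N : ℕ} (ψ : DirichletCharacter ℂ N) : ℂ :=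
  (1 - ψ (p : ZMod N) * (p : ℂ) ^ (m - 1)) * genBernoulli m ψ / m

/-- `z` is a unit at all places above `p`: it is not zero, and for some integer `c` prime to `p` the numbers
`c z` and `c / z` are algebraic integers. -/
def IsUnitAt (p : ℕ) (z : ℂ) : Prop :=
  z ≠ 0 ∧ ∃ c : ℤ, IsCoprime (p : ℤ) c ∧ IsIntegral ℤ ((c : ℂ) * z) ∧ IsIntegral ℤ ((c : ℂ) * z⁻¹)

/-- For `a, b ≥ 0`, `1 ≤ m ≤ 4` and a primitive character `ψ` modulo `2^a 3^b` with `ψ(-1) = (-1)^m` the value
`(1 - ψ(5) 5^(m-1)) B_{m,ψ} / m` is a unit at all places above `5`, if `(a, b, m)` is none of the triples `(0,0,4)`,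
`(2,0,1)`, `(3,1,1)`, `(4,0,2)`, `(4,1,3)`, `(2,2,4)`. -/
theorem result (a b m : ℕ) (hm1 : 1 ≤ m) (hm4 : m ≤ 4)
    (hexc : (a, b, m) ∉ ({(0, 0, 4), (2, 0, 1), (3, 1, 1), (4, 0, 2), (4, 1, 3), (2, 2, 4)} : Set (ℕ × ℕ × ℕ)))
    (ψ : DirichletCharacter ℂ (2 ^ a * 3 ^ b)) (hprim : ψ.IsPrimitive) (hpar : ψ (-1) = (-1) ^ m) :
    IsUnitAt 5 (lValue 5 m ψ) := by
  refine Pool.Agent.P8H3.GB.unit_five (a := a) (b := b) rfl hm1 hm4 ψ hprim hpar ?_
  intro h
  apply hexc
  unfold Pool.Agent.P8H3.GB.Exc at h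
  simp only [Set.mem_insert_iff, Set.mem_singleton_iff, Prod.mk.injEq]
  exact h

end Pool.Agent.Results.MP_c2a07f_nt.FiveTwoThree
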